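import Pool.Agent.Y562.ES.Main
import Pool.Agent.Y562.ES.Exist

/-!
# MP_04f1b7_lc: a `*`-elementary extension along which no ideal subgroup restricts to an ideal
subgroup

There are a first order structure `M` carrying a group (its multiplication is a function symbol) and
a `*`-elementary extension `N` of `M` such that for no ideal subgroup `H` of the semigroup of
external types of `N` is the restriction of `H` to `M` an ideal subgroup.

The group is the union `G` of the chain of groups `Sym(B i)`, `B i = 2^(i^2)`, where `Sym(B i)` acts
on `ℕ` by permuting the residues modulo `B i` in every block of length `B i`; the structure has all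
relations on `G`, and `N` is a nonprincipal ultrapower over `ℕ`.  Write numbers in mixed radix, the
`j`-th digit having `2^(2j+1)` possible values, and let `W` be the set of all `g` for which an even
number of digits of `g(0)` are equal to `1`.  Every ideal subgroup over `M` has two elements which
are separated by `W` (theorem `base_part`), but no ideal subgroup over `N` has two elements which
are separated by the symbol of `W` (theorem `top_part`).
-/

set_option autoImplicit false

open FirstOrder FirstOrder.Language FirstOrder.Language.Structure

namespace Pool.Agent.Results.MP_04f1b7_lc.NoIdealSubgroup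

open Pool.Agent.Y562.ES

/-- The answer to Q1 is negative: for a suitable `*`-elementary extension `N` of `M` no ideal
subgroup of the external types of `N` restricts to an ideal subgroup of the external types of
`M`. -/
theorem result : ∃ (L : FirstOrder.Language.{0, 0}) (mu : L.Functions 2) (M N : Type)
    (_ : Group M) (_ : Group N) (_ : L.Structure M) (_ : L.Structure N)
    (_ : (extLang L M).Structure N),
    Nonempty (M ↪ₑ[L.sum (extLang L M)] N) ∧
    (∀ x y : M, funMap mu ![x, y] = x * y) ∧ (∀ x y : N, funMap mu ![x, y] = x * y) ∧
    (∃ H : Set (Set (Set N)), IsIdealSubgroup L H) ∧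
    ∀ H : Set (Set (Set N)), IsIdealSubgroup L H → ¬ IsIdealSubgroup L (restr L M '' H) := by
  obtain ⟨L, mu, M, N, iM, iN, sM, sN, sE, h1, h2, h3, h4⟩ := main
  exact ⟨L, mu, M, N, iM, iN, sM, sN, sE, h1, h2, h3, exists_idealSubgroup h3,
    fun H hH hH' => h4 ⟨H, hH, hH'⟩⟩

end Pool.Agent.Results.MP_04f1b7_lc.NoIdealSubgroup
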